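import Pool.Agent.Helper93.KS.St

/-!
# Project KS, module EX2: the exceptional set in `(N, 2 N]`
-/

set_option autoImplicit false

noncomputable section

namespace Pool.Agent.Helper55.KS

open Finset Filter Topology Pool.Agent.Helper93.KS
open Pool.Agent.Helper9.TW (gm)
open Pool.Agent.Helper93.KP (gn rn)

/-- The choice of the moment. -/
private theorem pick {u i : ℕ} (hu : 3 ≤ u)
    (h : (50 ≤ i ∧ i < 19 * u) ∨ (21 * u ≤ i ∧ i < 29 * u) ∨ (41 * u ≤ i ∧ i < 59 * u)) :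
    ∃ m : ℕ, 1 ≤ m ∧ 41 * u ≤ m * i ∧ 10 * (m * (i + 1)) ≤ 594 * u := by
  rcases h with ⟨h1, h2⟩ | ⟨h1, h2⟩ | ⟨h1, h2⟩
  · have hi : 0 < i := by omega
    have hd := Nat.div_add_mod (41 * u + i - 1) i
    have hm := Nat.mod_lt (41 * u + i - 1) hi
    obtain ⟨m, hmd⟩ : ∃ m, m = (41 * u + i - 1) / i := ⟨_, rfl⟩
    rw [← hmd] at hd
    have hc : i * m = m * i := Nat.mul_comm _ _
    have hlow : 41 * u ≤ m * i := by omega
    have hup : m * i ≤ 41 * u + i - 1 := by omega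
    have hm1 : 1 ≤ m := by
      rcases Nat.eq_zero_or_pos m with h0 | h0
      · subst h0
        omega
      · exact h0
    refine ⟨m, hm1, hlow, ?_⟩
    rw [Nat.mul_add, Nat.mul_one]
    by_cases h3 : 41 * u ≤ 3 * i
    · have hm3 : m ≤ 3 := by
        by_contra hcon
        have h4 : 4 * i ≤ m * i := Nat.mul_le_mul_right i (by omega)
        omega
      have h5 : m * i ≤ 3 * i := Nat.mul_le_mul_right i hm3
      omega
    · obtain ⟨k, rfl⟩ : ∃ k, m = k + 1 := ⟨m - 1, by omega⟩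
      have h6 : (k + 1) * i = k * i + i := by ring
      have h7 : k * 50 ≤ k * i := Nat.mul_le_mul_left k h1
      omega
  · refine ⟨2, by norm_num, by omega, by omega⟩
  · refine ⟨1, le_rfl, by omega, by omega⟩

private theorem small (A : ℝ) :
    ∀ᶠ N : ℕ in atTop, A * (1 + Real.log N) ≤ (N : ℝ) ^ (1 / 1000 : ℝ) := by
  have hc : (0 : ℝ) < 1 / (2 * (|A| + 1)) := by positivity
  have h1 := (isLittleO_log_rpow_atTop (r := (1 / 1000 : ℝ)) (by norm_num)).def hc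
  have h2 := (tendsto_rpow_atTop (y := (1 / 1000 : ℝ)) (by norm_num)).eventually_ge_atTop
    (2 * (|A| + 1))
  have h3 := (h1.and (h2.and (eventually_ge_atTop (1 : ℝ))))
  have h4 := tendsto_natCast_atTop_atTop (R := ℝ) |>.eventually h3
  filter_upwards [h4] with N hN
  obtain ⟨a1, a2, a3⟩ := hN
  have hr : (0 : ℝ) ≤ (N : ℝ) ^ (1 / 1000 : ℝ) := by positivity
  rw [Real.norm_of_nonneg (Real.log_nonneg a3), Real.norm_of_nonneg hr] at a1
  have hA : 0 ≤ |A| := abs_nonneg A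
  have hl := Real.log_nonneg a3
  have h5 : A * (1 + Real.log N) ≤ |A| * (1 + Real.log N) :=
    mul_le_mul_of_nonneg_right (le_abs_self A) (by linarith)
  have h6 : 1 ≤ 1 / (2 * (|A| + 1)) * (N : ℝ) ^ (1 / 1000 : ℝ) := by
    rw [one_div, ← div_eq_inv_mul, le_div_iff₀ (by positivity), one_mul]
    exact a2
  have h7 : (|A| + 1) * (1 / (2 * (|A| + 1)) * (N : ℝ) ^ (1 / 1000 : ℝ)) =
      (N : ℝ) ^ (1 / 1000 : ℝ) / 2 := by
    field_simp
  have h8 : |A| * (1 + Real.log N) ≤ (|A| + 1) * (1 + Real.log N) :=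
    mul_le_mul_of_nonneg_right (by linarith) (by linarith)
  have h9 : (|A| + 1) * (1 + Real.log N) ≤
      (|A| + 1) * (2 * (1 / (2 * (|A| + 1)) * (N : ℝ) ^ (1 / 1000 : ℝ))) :=
    mul_le_mul_of_nonneg_left (by linarith) (by linarith)
  linarith

/-- One box. -/
private theorem one_box (hB : StEXB) (h1 : StEX1) {u i : ℕ} {η K : ℝ} (hu : 3 ≤ u) (hi50 : 50 ≤ i)
    (hη : 0 < η) (hK : 0 < K)
    (h : (50 ≤ i ∧ i < 19 * u) ∨ (21 * u ≤ i ∧ i < 29 * u) ∨ (41 * u ≤ i ∧ i < 59 * u)) :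
    ∀ᶠ N : ℕ in atTop, (((Ioc N (2 * N)).filter
      (fun n => η ≤ |∑ p ∈ bq N (1 / (100 * u)) i, sx n p / p|)).card : ℝ) ≤
      (N : ℝ) ^ (595 / 1000 : ℝ) / K := by
  obtain ⟨m, hm1, hma, hmb⟩ := pick hu h
  obtain ⟨C, P₀, hC, hP₀, hEx⟩ := hB m η hm1 hη
  have hu0 : (0 : ℝ) < u := by exact_mod_cast (show 0 < u by omega)
  have hi0 : (0 : ℝ) < i := by exact_mod_cast (show 0 < i by omega)
  obtain ⟨ω, hω⟩ : ∃ ω : ℝ, ω = 1 / (100 * u) := ⟨_, rfl⟩
  have hω0 : 0 < ω := by rw [hω]; positivity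
  have ha : (41 / 100 : ℝ) ≤ (i : ℝ) * ω * m := by
    have h2 : (41 : ℝ) * u ≤ m * i := by exact_mod_cast hma
    rw [hω, show (i : ℝ) * (1 / (100 * u)) * m = (m * i) / (100 * u) by ring,
      le_div_iff₀ (by positivity)]
    linarith
  have hb : ((i : ℝ) + 1) * ω * m ≤ 594 / 1000 := by
    have h2 : (10 : ℝ) * (m * (i + 1)) ≤ 594 * u := by exact_mod_cast hmb
    rw [hω, show ((i : ℝ) + 1) * (1 / (100 * u)) * m = (m * (i + 1)) / (100 * u) by ring,
      div_le_iff₀ (by positivity)]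
    linarith
  have hb1 : ((i : ℝ) + 1) * ω ≤ 1 := by
    have h2 : (i : ℝ) + 1 ≤ 59 * u := by
      have : i + 1 ≤ 59 * u := by omega
      exact_mod_cast this
    rw [hω, show ((i : ℝ) + 1) * (1 / (100 * u)) = ((i : ℝ) + 1) / (100 * u) by ring,
      div_le_iff₀ (by positivity)]
    linarith
  have e1 := tendsto_natCast_atTop_atTop (R := ℝ) |>.eventually
    ((tendsto_rpow_atTop (y := (i : ℝ) * ω) (by positivity)).eventually_ge_atTop P₀)
  have e2 := h1 u i 1 (by omega) hi50 one_pos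
  have e3 := small (2 * C * K)
  filter_upwards [e1, e2, e3, eventually_ge_atTop 1] with N g1 g2 g3 g4
  have hN1 : (1 : ℝ) ≤ N := by exact_mod_cast g4
  have hN0 : (0 : ℝ) < N := by linarith
  have hab : (i : ℝ) * ω ≤ ((i : ℝ) + 1) * ω := by nlinarith
  have hPP : (N : ℝ) ^ ((i : ℝ) * ω) ≤ (N : ℝ) ^ (((i : ℝ) + 1) * ω) :=
    Real.rpow_le_rpow_of_exponent_le hN1 hab
  rw [← hω] at g2 ⊢
  have hcard := hEx N ((N : ℝ) ^ ((i : ℝ) * ω)) ((N : ℝ) ^ (((i : ℝ) + 1) * ω)) (bq N ω i) g4 g1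
    hPP (by
      intro p hp
      unfold bq at hp
      obtain ⟨hp1, hp2, hp3⟩ := mem_filter.1 hp
      exact ⟨hp2, hp3, (Nat.lt_ceil.1 (mem_range.1 hp1)).le⟩) g2.1
  refine hcard.trans ?_
  have q1 : (N : ℝ) * ((N : ℝ) ^ ((i : ℝ) * ω)) ^ (-(m : ℝ)) ≤ (N : ℝ) ^ (594 / 1000 : ℝ) := by
    rw [← Real.rpow_mul hN0.le]
    nth_rewrite 1 [← Real.rpow_one (N : ℝ)]
    rw [← Real.rpow_add hN0]
    refine Real.rpow_le_rpow_of_exponent_le hN1 ?_
    linarith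
  have q2 : ((N : ℝ) ^ (((i : ℝ) + 1) * ω)) ^ m ≤ (N : ℝ) ^ (594 / 1000 : ℝ) := by
    rw [← Real.rpow_natCast, ← Real.rpow_mul hN0.le]
    exact Real.rpow_le_rpow_of_exponent_le hN1 hb
  have q3 : Real.log ((N : ℝ) ^ (((i : ℝ) + 1) * ω)) ≤ Real.log N := by
    rw [Real.log_rpow hN0]
    have hl := Real.log_nonneg hN1
    nlinarith
  have hl := Real.log_nonneg hN1
  have q4 : C * (1 + Real.log ((N : ℝ) ^ (((i : ℝ) + 1) * ω))) *
      (N * ((N : ℝ) ^ ((i : ℝ) * ω)) ^ (-(m : ℝ)) + ((N : ℝ) ^ (((i : ℝ) + 1) * ω)) ^ m) ≤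
      C * (1 + Real.log N) * ((N : ℝ) ^ (594 / 1000 : ℝ) + (N : ℝ) ^ (594 / 1000 : ℝ)) := by
    apply mul_le_mul (mul_le_mul_of_nonneg_left (by linarith) hC.le) (add_le_add q1 q2)
    · positivity
    · exact mul_nonneg hC.le (by linarith)
  refine q4.trans ?_
  rw [le_div_iff₀ hK]
  have q5 : (N : ℝ) ^ (595 / 1000 : ℝ) = (N : ℝ) ^ (594 / 1000 : ℝ) * (N : ℝ) ^ (1 / 1000 : ℝ) := by
    rw [← Real.rpow_add hN0]
    norm_num
  rw [q5]
  have q6 : (0 : ℝ) ≤ (N : ℝ) ^ (594 / 1000 : ℝ) := by positivity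
  have q7 := mul_le_mul_of_nonneg_left g3 q6
  calc C * (1 + Real.log N) * ((N : ℝ) ^ (594 / 1000 : ℝ) + (N : ℝ) ^ (594 / 1000 : ℝ)) * K
      = (N : ℝ) ^ (594 / 1000 : ℝ) * (2 * C * K * (1 + Real.log N)) := by ring
    _ ≤ _ := q7

/-- The boxes with density one. -/
private def Ib (u j0 : ℕ) : Finset ℕ :=
  Ico j0 (19 * u) ∪ (Ico (21 * u) (29 * u) ∪ Ico (41 * u) (59 * u))

private theorem gn_nonneg (n p : ℕ) : 0 ≤ gn n p := by
  unfold gn
  positivity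

/-- **EX2.** -/
theorem hEX2 (hB : StEXB) (h1 : StEX1) (hA : StAB) : StEX2 := by
  classical
  intro u j0 η hj0 hju hη
  have hu3 : 3 ≤ u := by omega
  have hu0 : (0 : ℝ) < u := by exact_mod_cast (show 0 < u by omega)
  have hω0 : (0 : ℝ) < 1 / (100 * u) := by positivity
  have hIb : ∀ i ∈ Ib u j0, 50 ≤ i ∧
      ((50 ≤ i ∧ i < 19 * u) ∨ (21 * u ≤ i ∧ i < 29 * u) ∨ (41 * u ≤ i ∧ i < 59 * u)) := by
    intro i hi
    unfold Ib at hi
    simp only [mem_union, mem_Ico] at hi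
    omega
  have hK : (0 : ℝ) < ((Ib u j0).card : ℝ) + 1 := by positivity
  have hone : ∀ᶠ N : ℕ in atTop, ∀ i ∈ Ib u j0, (((Ioc N (2 * N)).filter
      (fun n => η / 2 ≤ |∑ p ∈ bq N (1 / (100 * u)) i, sx n p / p|)).card : ℝ) ≤
      (N : ℝ) ^ (595 / 1000 : ℝ) / (((Ib u j0).card : ℝ) + 1) := by
    rw [Filter.eventually_all_finset]
    intro i hi
    obtain ⟨hi50, hi2⟩ := hIb i hi
    exact one_box hB h1 hu3 hi50 (by linarith) hK hi2
  have hE1 : ∀ᶠ N : ℕ in atTop, ∀ i ∈ Ib u j0, ∀ n ∈ Ioc N (2 * N),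
      Gb n (1 / (100 * u)) (gn n) i ≤ gm i + η / 2 +
        |∑ p ∈ bq N (1 / (100 * u)) i, sx n p / p| := by
    rw [Filter.eventually_all_finset]
    intro i hi
    filter_upwards [h1 u i (η / 2) (by omega) (hIb i hi).1 (by linarith)] with N hN
    exact hN.2
  have hAB : ∀ᶠ n : ℕ in atTop, ∀ i ∈ Ico (19 * u) (78 * u),
      Gb n (1 / (100 * u)) (gn n) i ≤ 2 * gm i + η := by
    rw [Filter.eventually_all_finset]
    intro i hi
    have := mem_Ico.1 hi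
    exact hA _ η i hω0 (by omega) hη
  obtain ⟨n₀, hn₀⟩ := eventually_atTop.1 hAB
  filter_upwards [hone, hE1, eventually_ge_atTop n₀] with N g1 g2 g3
  have hsub : (Ioc N (2 * N)).filter (fun n => ¬ GD 1 19 78 kf1 u j0 η n) ⊆
      (Ib u j0).biUnion (fun i => (Ioc N (2 * N)).filter
        (fun n => η / 2 ≤ |∑ p ∈ bq N (1 / (100 * u)) i, sx n p / p|)) := by
    intro n hn
    obtain ⟨hnI, hnG⟩ := mem_filter.1 hn
    rw [mem_biUnion]
    by_contra hcon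
    apply hnG
    have hgood : ∀ i ∈ Ib u j0, Gb n (1 / (100 * u)) (gn n) i ≤ gm i + η := by
      intro i hi
      have h2 : ¬ (η / 2 ≤ |∑ p ∈ bq N (1 / (100 * u)) i, sx n p / p|) := by
        intro h3
        exact hcon ⟨i, hi, mem_filter.2 ⟨hnI, h3⟩⟩
      have h4 := g2 i hi n hnI
      push Not at h2
      linarith
    have hnn : n₀ ≤ n := by
      have := mem_Ioc.1 hnI
      omega
    refine ⟨⟨gn_nonneg n, fun i hi => ?_⟩, fun j hj => ?_⟩
    · have h5 := hgood i (by unfold Ib; exact mem_union_left _ hi)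
      rw [Nat.cast_one, one_mul]
      exact h5
    · have hj' := mem_Ico.1 hj
      unfold kf1
      split_ifs with hc
      · rw [Nat.cast_one, one_mul]
        apply hgood
        unfold Ib
        simp only [mem_union, mem_Ico]
        omega
      · exact_mod_cast hn₀ n hnn j hj
  have hcard : (((Ioc N (2 * N)).filter (fun n => ¬ GD 1 19 78 kf1 u j0 η n)).card : ℝ) ≤
      ∑ i ∈ Ib u j0, (((Ioc N (2 * N)).filter
        (fun n => η / 2 ≤ |∑ p ∈ bq N (1 / (100 * u)) i, sx n p / p|)).card : ℝ) := by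
    have h2 := (card_le_card hsub).trans card_biUnion_le
    exact_mod_cast h2
  refine hcard.trans ?_
  have h3 : ∑ i ∈ Ib u j0, (((Ioc N (2 * N)).filter
        (fun n => η / 2 ≤ |∑ p ∈ bq N (1 / (100 * u)) i, sx n p / p|)).card : ℝ) ≤
      ∑ _i ∈ Ib u j0, (N : ℝ) ^ (595 / 1000 : ℝ) / (((Ib u j0).card : ℝ) + 1) :=
    sum_le_sum g1
  refine h3.trans ?_
  rw [sum_const, nsmul_eq_mul, mul_div_assoc', div_le_iff₀ hK]
  have h4 : (0 : ℝ) ≤ (N : ℝ) ^ (595 / 1000 : ℝ) := by positivity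
  nlinarith

end Pool.Agent.Helper55.KS
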